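import Mathlib
import Pool.Agent.Lib.helper5.Book
import Pool.Agent.H.MP_01d970_co.A

set_option autoImplicit false

namespace Pool.Agent.Results.MP_01d970_co.No

open Pool.Agent.Lib.helper5.Book Pool.Agent.H.MP_01d970_co

theorem result : ∀ c : ℕ, ∃ (V : Type) (_ : Fintype V) (G : SimpleGraph V) (A : Finset V),
    G.CliqueFree 3 ∧ A.card ≤ 7 ∧ Planar (G.induce {v | v ∉ A}) ∧
    ∀ f : V → Fin 3, ∃ S : Finset V, (∀ x ∈ S, ∀ y ∈ S, f x = f y) ∧
      (G.induce (S : Set V)).Connected ∧ c < S.card := by
  classical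
  intro C
  refine ⟨V C, inferInstance, GG C, Finset.univ.image .inl, free,
    Finset.card_image_le.trans (by simp), planar _ (by simp), fun f => ?_⟩
  by_contra hn
  push Not at hn
  refine force f fun v S hS => ?_
  obtain ⟨a, b⟩ := Pool.Agent.H.MP_2b2760_co.comp (GG C) f v
  refine le_trans (Finset.card_le_card fun y hy => ?_) (hn
    {u | (GG C ⊓ SimpleGraph.fromRel (fun x y => f x = f y)).Reachable v u}.toFinset
    (fun u hu w hw => by rw [a u (by simpa using hu), a w (by simpa using hw)])
    (by rw [Set.coe_toFinset]; exact b))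
  simpa using hS y hy

end Pool.Agent.Results.MP_01d970_co.No
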